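import Pool.Agent.H.MP_6e9b54_lc.A

set_option autoImplicit false

namespace Pool.Agent.Results.MP_6e9b54_lc.Minimal

open FirstOrder FirstOrder.Language Cardinal Filter Set Topology

@[reducible] def pw (L : FirstOrder.Language.{0, 0}) (M : Type) [L.Structure M] :
    TopologicalSpace (M →[L] M) :=
  TopologicalSpace.induced (fun f => (f : M → M)) (@Pi.topologicalSpace M (fun _ => M) fun _ => ⊥)

theorem result (L : FirstOrder.Language.{0, 0}) [Countable L.Symbols] (M : Type) [L.Structure M]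
    [Countable M] [Infinite M] (hcat : Categorical (ℵ₀ : Cardinal.{0}) (L.completeTheory M))
    (τ : TopologicalSpace (M →[L] M)) (hT2 : @T2Space _ τ)
    (hmul : Continuous[@instTopologicalSpaceProd _ _ τ τ, τ]
      fun p : (M →[L] M) × (M →[L] M) => p.1.comp p.2)
    (hle : ∀ W, IsOpen[τ] W → IsOpen[pw L M] W) : τ = pw L M := by
  classical
  let _ : TopologicalSpace M := ⊥
  have : DiscreteTopology M := ⟨rfl⟩
  have fin : ∀ W, IsOpen[τ] W → ∀ g ∈ W, ∃ K : Finset M, ∀ s : M →[L] M,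
      (∀ k ∈ K, s k = g k) → s ∈ W := fun W h g hg => by
    obtain ⟨V, h1, rfl⟩ := hle W h
    obtain ⟨K, u, h2, h3⟩ := isOpen_pi_iff.1 h1 g hg
    exact ⟨K, fun s k => h3 fun i hi => show s i ∈ u i from k i hi ▸ (h2 i hi).2⟩
  refine le_antisymm (continuous_iff_le_induced.1 (continuous_pi fun b =>
    continuous_discrete_rng.2 fun y => isOpen_iff_mem_nhds.2 fun f hf => by_contra fun k => ?_)) hle
  have : (𝓝 f ⊓ 𝓟 {s : M →[L] M | s b ≠ y}).NeBot := notMem_iff_inf_principal_compl.1 k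
  obtain ⟨U, hU⟩ := Ultrafilter.exists_le (𝓝 f ⊓ 𝓟 {s : M →[L] M | s b ≠ y})
  obtain ⟨g, u, h1, h2⟩ := H.MP_6e9b54_lc.key (H.MP_6e9b54_lc.cat_of hcat) U
  have h3 : u ≠ g.comp f := fun e => h1 y b (hU (mem_inf_of_right (mem_principal_self _)))
    (by rw [e, ← mem_singleton_iff.1 hf]; rfl)
  obtain ⟨W1, W2, o1, o2, m1, m2, d⟩ := t2_separation h3
  obtain ⟨N1, N2, n1, n2, m3, m4, n3⟩ := isOpen_prod_iff.1 (o2.preimage hmul) g f m2
  obtain ⟨K1, k1⟩ := fin _ o1 u m1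
  obtain ⟨K2, k2⟩ := fin _ n1 g m3
  obtain ⟨s, ⟨h, h4⟩, h5⟩ := ((h2 (K1 ∪ K2)).and (hU (mem_inf_of_left (n2.mem_nhds m4)))).exists
  exact disjoint_left.1 d (k1 (h.comp s) fun i hi => (h4 i (Finset.mem_union_left _ hi)).2)
    (n3 (mk_mem_prod (k2 h fun i hi => (h4 i (Finset.mem_union_right _ hi)).1) h5))

end Pool.Agent.Results.MP_6e9b54_lc.Minimal
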